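import Mathlib

/-!
# No constant-fraction reachability orientation of mixed graphs

For every `α > 0` there is a finite mixed graph `G` such that, already with all weights equal
to `1`, every orientation of `G` keeps fewer than an `α`-fraction of the reachable pairs of `G`.
The graphs are butterfly networks with many pendant sources and sinks.
-/

namespace Pool.Agent.Results.MP_408802_co.NoConstant

open Finset

/-- A mixed graph on the vertex set `V`: a finite multiset of edges (unordered pairs of distinct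
vertices) and a finite multiset of arcs (ordered pairs of distinct vertices). -/
structure MixedGraph (V : Type) where
  edges : Multiset (Sym2 V)
  arcs : Multiset (V × V)
  edges_ne : ∀ e ∈ edges, ¬ e.IsDiag
  arcs_ne : ∀ a ∈ arcs, a.1 ≠ a.2

namespace MixedGraph

variable {V : Type}

/-- One step of a walk: along an arc forwards, or along an edge in either direction. -/
def Step (G : MixedGraph V) (x y : V) : Prop :=
  (x, y) ∈ G.arcs ∨ s(x, y) ∈ G.edges

/-- `v` is reachable from `u`. -/
def Reach (G : MixedGraph V) (u v : V) : Prop :=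
  Relation.ReflTransGen G.Step u v

/-- `D` is an orientation of `G`: it keeps every arc of `G`, has no edges, and its further arcs
are obtained by replacing every edge `{u, v}` of `G` by exactly one of `(u, v)`, `(v, u)`. -/
def IsOrientation (G D : MixedGraph V) : Prop :=
  D.edges = 0 ∧ ∃ F : Multiset (V × V),
    F.map (fun a => s(a.1, a.2)) = G.edges ∧ D.arcs = G.arcs + F

open Classical in
/-- `R(G, w) = 2 ∑ (w v choose 2) + ∑ w u * w v`, the second sum over the ordered pairs `(u, v)`
of distinct vertices such that `v` is reachable from `u`. -/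
noncomputable def R [Fintype V] (G : MixedGraph V) (w : V → ℕ) : ℕ :=
  2 * ∑ v, (w v).choose 2 +
    ∑ p ∈ (univ : Finset (V × V)).filter (fun p => p.1 ≠ p.2 ∧ G.Reach p.1 p.2), w p.1 * w p.2

end MixedGraph

/-! ### The butterfly network -/

/-- Vertices of the `k`-dimensional cube. -/
abbrev Cube (k : ℕ) := Fin k → Bool

/-- Flip coordinate `j`. -/
def flip {k : ℕ} (j : Fin k) (u : Cube k) : Cube k := Function.update u j (!(u j))

theorem flip_ne {k : ℕ} (j : Fin k) (u : Cube k) : flip j u ≠ u := by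
  intro h
  have := congrFun h j
  simp [flip] at this

theorem flip_flip {k : ℕ} (j : Fin k) (u : Cube k) : flip j (flip j u) = u := by
  funext i
  by_cases h : i = j
  · subst h; simp [flip]
  · simp [flip, h]

theorem flip_apply_self {k : ℕ} (j : Fin k) (u : Cube k) : flip j u j = !(u j) := by
  simp [flip]

/-- The vertex set: sources `(u, m)`, core vertices `(i, u)`, sinks `(u, m)`. -/
inductive Vtx (k M : ℕ) : Type
  | src (u : Cube k) (m : Fin M) : Vtx k M
  | core (i : Fin (k + 1)) (u : Cube k) : Vtx k M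
  | snk (u : Cube k) (m : Fin M) : Vtx k M

namespace Vtx

/-- The vertex set as a sum type. -/
def equiv (k M : ℕ) :
    Vtx k M ≃ (Cube k × Fin M) ⊕ (Fin (k + 1) × Cube k) ⊕ (Cube k × Fin M) where
  toFun
    | src u m => Sum.inl (u, m)
    | core i u => Sum.inr (Sum.inl (i, u))
    | snk u m => Sum.inr (Sum.inr (u, m))
  invFun
    | Sum.inl (u, m) => src u m
    | Sum.inr (Sum.inl (i, u)) => core i u
    | Sum.inr (Sum.inr (u, m)) => snk u m
  left_inv x := by cases x <;> rfl
  right_inv x := by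
    rcases x with ⟨u, m⟩ | ⟨i, u⟩ | ⟨u, m⟩ <;> rfl

noncomputable instance (k M : ℕ) : Fintype (Vtx k M) := Fintype.ofEquiv _ (equiv k M).symm
noncomputable instance (k M : ℕ) : DecidableEq (Vtx k M) := Classical.decEq _

end Vtx

open Vtx

/-- The arcs of the network. -/
noncomputable def bArcs (k M : ℕ) : Finset (Vtx k M × Vtx k M) :=
  (univ : Finset (Cube k × Fin M)).image (fun p => (src p.1 p.2, core 0 p.1)) ∪
  (univ : Finset (Fin k × Cube k)).image (fun p => (core p.1.castSucc p.2, core p.1.succ p.2)) ∪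
  (univ : Finset (Cube k × Fin M)).image (fun p => (core (Fin.last k) p.1, snk p.1 p.2))

/-- The edges of the network. -/
noncomputable def bEdges (k M : ℕ) : Finset (Sym2 (Vtx k M)) :=
  (univ : Finset (Fin k × Cube k)).image
    (fun p => s(core p.1.succ p.2, core p.1.succ (flip p.1 p.2)))

/-- The butterfly network. -/
noncomputable def butterfly (k M : ℕ) : MixedGraph (Vtx k M) where
  edges := (bEdges k M).val
  arcs := (bArcs k M).val
  edges_ne := by
    intro e he
    simp only [bEdges, Finset.mem_val, Finset.mem_image, Finset.mem_univ, true_and] at he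
    obtain ⟨p, rfl⟩ := he
    simp only [Sym2.mk_isDiag_iff, core.injEq, true_and]
    exact fun h => flip_ne _ _ h.symm
  arcs_ne := by
    intro a ha
    simp only [bArcs, Finset.mem_val, Finset.mem_union, Finset.mem_image, Finset.mem_univ,
      true_and] at ha
    rcases ha with (⟨p, rfl⟩ | ⟨p, rfl⟩) | ⟨p, rfl⟩
    · simp
    · simp only [ne_eq, core.injEq, and_true]
      intro h
      have := congrArg Fin.val h
      simp at this
    · simp

theorem mem_bArcs {k M : ℕ} {x y : Vtx k M} : (x, y) ∈ bArcs k M ↔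
    (∃ u m, x = src u m ∧ y = core 0 u) ∨
    (∃ (i : Fin k) (u : Cube k), x = core i.castSucc u ∧ y = core i.succ u) ∨
    (∃ u m, x = core (Fin.last k) u ∧ y = snk u m) := by
  simp only [bArcs, Finset.mem_union, Finset.mem_image, Finset.mem_univ, true_and,
    Prod.exists, Prod.mk.injEq]
  constructor
  · rintro ((⟨u, m, h1, h2⟩ | ⟨i, u, h1, h2⟩) | ⟨u, m, h1, h2⟩)
    · exact Or.inl ⟨u, m, h1.symm, h2.symm⟩
    · exact Or.inr (Or.inl ⟨i, u, h1.symm, h2.symm⟩)
    · exact Or.inr (Or.inr ⟨u, m, h1.symm, h2.symm⟩)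
  · rintro (⟨u, m, h1, h2⟩ | ⟨i, u, h1, h2⟩ | ⟨u, m, h1, h2⟩)
    · exact Or.inl (Or.inl ⟨u, m, h1.symm, h2.symm⟩)
    · exact Or.inl (Or.inr ⟨i, u, h1.symm, h2.symm⟩)
    · exact Or.inr ⟨u, m, h1.symm, h2.symm⟩

theorem mem_bEdges {k M : ℕ} {x y : Vtx k M} : s(x, y) ∈ bEdges k M ↔
    ∃ (j : Fin k) (u : Cube k), x = core j.succ u ∧ y = core j.succ (flip j u) := by
  simp only [bEdges, Finset.mem_image, Finset.mem_univ, true_and, Prod.exists, Sym2.eq_iff]
  constructor
  · rintro ⟨j, u, (⟨h1, h2⟩ | ⟨h1, h2⟩)⟩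
    · exact ⟨j, u, h1.symm, h2.symm⟩
    · refine ⟨j, flip j u, h2.symm, ?_⟩
      rw [flip_flip]; exact h1.symm
  · rintro ⟨j, u, h1, h2⟩
    exact ⟨j, u, Or.inl ⟨h1.symm, h2.symm⟩⟩

/-! ### Reachability in the unoriented network -/

/-- The cube vertex that agrees with `v` below `i` and with `u` from `i` on. -/
def mix {k : ℕ} (u v : Cube k) (i : ℕ) : Cube k := fun j => if j.val < i then v j else u j

theorem mix_zero {k : ℕ} (u v : Cube k) : mix u v 0 = u := by
  funext j; simp [mix]

theorem mix_last {k : ℕ} (u v : Cube k) : mix u v k = v := by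
  funext j; simp [mix]

theorem mix_succ {k : ℕ} (u v : Cube k) (i : Fin k) :
    mix u v (i.val + 1) = mix u v i.val ∨ mix u v (i.val + 1) = flip i (mix u v i.val) := by
  by_cases h : u i = v i
  · left
    funext j
    by_cases hj : j = i
    · subst hj; simp [mix, h]
    · have : j.val ≠ i.val := fun h' => hj (Fin.ext h')
      have h3 : (j.val < i.val + 1) ↔ (j.val < i.val) := by omega
      simp [mix, h3]
  · right
    funext j
    by_cases hj : j = i
    · subst hj
      simp only [mix, flip, Function.update_self]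
      simp only [lt_add_iff_pos_right, zero_lt_one, if_true, lt_irrefl, if_false]
      cases hu : u j <;> cases hv : v j <;> simp_all
    · have : j.val ≠ i.val := fun h' => hj (Fin.ext h')
      have h3 : (j.val < i.val + 1) ↔ (j.val < i.val) := by omega
      simp [mix, h3, flip, hj]

theorem reach_core {k M : ℕ} (u v : Cube k) (i : ℕ) (hi : i < k + 1) :
    (butterfly k M).Reach (core 0 u) (core ⟨i, hi⟩ (mix u v i)) := by
  induction i with
  | zero =>
    rw [mix_zero]
    exact Relation.ReflTransGen.refl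
  | succ i ih =>
    have hik : i < k := by omega
    refine (ih (by omega)).trans ?_
    have h1 : (butterfly k M).Step (core ⟨i, by omega⟩ (mix u v i))
        (core ⟨i + 1, hi⟩ (mix u v i)) := by
      left
      refine mem_bArcs.2 (Or.inr (Or.inl ⟨⟨i, hik⟩, mix u v i, ?_, ?_⟩)) <;> rfl
    rcases mix_succ u v ⟨i, hik⟩ with h | h
    · change mix u v (i + 1) = mix u v i at h
      rw [h]
      exact Relation.ReflTransGen.single h1
    · change mix u v (i + 1) = flip ⟨i, hik⟩ (mix u v i) at h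
      rw [h]
      refine (Relation.ReflTransGen.single h1).trans (Relation.ReflTransGen.single ?_)
      right
      exact mem_bEdges.2 ⟨⟨i, hik⟩, mix u v i, rfl, rfl⟩

theorem reach_src_snk {k M : ℕ} (u v : Cube k) (m m' : Fin M) :
    (butterfly k M).Reach (src u m) (snk v m') := by
  have h1 : (butterfly k M).Step (src u m) (core 0 u) :=
    Or.inl (mem_bArcs.2 (Or.inl ⟨u, m, rfl, rfl⟩))
  have h2 : (butterfly k M).Step (core (Fin.last k) v) (snk v m') :=
    Or.inl (mem_bArcs.2 (Or.inr (Or.inr ⟨v, m', rfl, rfl⟩)))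
  have h3 := reach_core (M := M) u v k (Nat.lt_succ_self k)
  rw [mix_last] at h3
  exact ((Relation.ReflTransGen.single h1).trans h3).trans (Relation.ReflTransGen.single h2)

/-! ### Reachability in an orientation -/

section Orientation

variable {k M : ℕ} {D : MixedGraph (Vtx k M)} {F : Multiset (Vtx k M × Vtx k M)}

/-- The data of an orientation of the network. -/
structure IsOr (D : MixedGraph (Vtx k M)) (F : Multiset (Vtx k M × Vtx k M)) : Prop where
  edges : D.edges = 0
  map : F.map (fun a => s(a.1, a.2)) = (bEdges k M).val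
  arcs : D.arcs = (bArcs k M).val + F

theorem step_iff (h : IsOr D F) (x y : Vtx k M) :
    D.Step x y ↔ (x, y) ∈ bArcs k M ∨ (x, y) ∈ F := by
  unfold MixedGraph.Step
  rw [h.edges, h.arcs]
  simp

theorem mem_bEdges_of_mem (h : IsOr D F) {x y : Vtx k M} (hxy : (x, y) ∈ F) :
    s(x, y) ∈ bEdges k M := by
  have : s(x, y) ∈ F.map (fun a => s(a.1, a.2)) :=
    Multiset.mem_map.2 ⟨(x, y), hxy, rfl⟩
  rw [h.map] at this
  exact this

theorem not_both (h : IsOr D F) {x y : Vtx k M} (hne : x ≠ y) (hxy : (x, y) ∈ F)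
    (hyx : (y, x) ∈ F) : False := by
  have hnd : (F.map (fun a => s(a.1, a.2))).Nodup := by
    rw [h.map]; exact (bEdges k M).nodup
  have := Multiset.inj_on_of_nodup_map hnd (x, y) hxy (y, x) hyx Sym2.eq_swap
  exact hne (Prod.mk.inj this).1

/-- Nothing enters a source. -/
theorem reach_src (h : IsOr D F) {x : Vtx k M} {u : Cube k} {m : Fin M}
    (hr : D.Reach x (src u m)) : x = src u m := by
  rcases Relation.ReflTransGen.cases_tail hr with h1 | ⟨y, -, h2⟩
  · exact h1.symm
  · exfalso
    rcases (step_iff h _ _).1 h2 with h3 | h3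
    · rcases mem_bArcs.1 h3 with ⟨_, _, -, h4⟩ | ⟨_, _, -, h4⟩ | ⟨_, _, -, h4⟩ <;> cases h4
    · obtain ⟨_, _, -, h4⟩ := mem_bEdges.1 (mem_bEdges_of_mem h h3)
      cases h4

/-- Nothing leaves a sink. -/
theorem reach_from_snk (h : IsOr D F) {y : Vtx k M} {u : Cube k} {m : Fin M}
    (hr : D.Reach (snk u m) y) : y = snk u m := by
  rcases Relation.ReflTransGen.cases_head hr with h1 | ⟨y', h2, -⟩
  · exact h1.symm
  · exfalso
    rcases (step_iff h _ _).1 h2 with h3 | h3
    · rcases mem_bArcs.1 h3 with ⟨_, _, h4, -⟩ | ⟨_, _, h4, -⟩ | ⟨_, _, h4, -⟩ <;> cases h4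
    · obtain ⟨_, _, h4, -⟩ := mem_bEdges.1 (mem_bEdges_of_mem h h3)
      cases h4

/-- A sink is entered only from the last core level. -/
theorem reach_snk (h : IsOr D F) {u v : Cube k} {m m' : Fin M}
    (hr : D.Reach (src u m) (snk v m')) : D.Reach (src u m) (core (Fin.last k) v) := by
  rcases Relation.ReflTransGen.cases_tail hr with h1 | ⟨y, hy, h2⟩
  · cases h1
  · rcases (step_iff h _ _).1 h2 with h3 | h3
    · rcases mem_bArcs.1 h3 with ⟨_, _, -, h4⟩ | ⟨_, _, -, h4⟩ | ⟨_, _, h5, h4⟩
      · cases h4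
      · cases h4
      · cases h4
        rw [h5] at hy
        exact hy
    · obtain ⟨_, _, -, h4⟩ := mem_bEdges.1 (mem_bEdges_of_mem h h3)
      cases h4

/-- The first core level. -/
theorem reach_core_zero (h : IsOr D F) {u v : Cube k} {m : Fin M}
    (hr : D.Reach (src u m) (core 0 v)) : u = v := by
  rcases Relation.ReflTransGen.cases_tail hr with h1 | ⟨y, hy, h2⟩
  · cases h1
  · rcases (step_iff h _ _).1 h2 with h3 | h3
    · rcases mem_bArcs.1 h3 with ⟨v', m', h5, h4⟩ | ⟨i, v', h5, h4⟩ | ⟨_, _, h5, h4⟩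
      · cases h4
        subst h5
        have := reach_src h hy
        cases this
        rfl
      · simp only [core.injEq] at h4
        exact absurd h4.1.symm (Fin.succ_ne_zero i)
      · cases h4
    · obtain ⟨j, _, -, h4⟩ := mem_bEdges.1 (mem_bEdges_of_mem h h3)
      simp only [core.injEq] at h4
      exact absurd h4.1.symm (Fin.succ_ne_zero j)

/-- The last step into a core vertex of a later level. -/
theorem reach_core_succ_aux (h : IsOr D F) {u v : Cube k} {m : Fin M} {i : Fin k}
    (hr : D.Reach (src u m) (core i.succ v)) :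
    D.Reach (src u m) (core i.castSucc v) ∨
      ((core i.succ (flip i v), core i.succ v) ∈ F ∧
        D.Reach (src u m) (core i.succ (flip i v))) := by
  rcases Relation.ReflTransGen.cases_tail hr with h1 | ⟨y, hy, h2⟩
  · cases h1
  · rcases (step_iff h _ _).1 h2 with h3 | h3
    · rcases mem_bArcs.1 h3 with ⟨v', m', h5, h4⟩ | ⟨j, v', h5, h4⟩ | ⟨_, _, h5, h4⟩
      · simp only [core.injEq] at h4
        exact absurd h4.1 (Fin.succ_ne_zero i)
      · simp only [core.injEq, Fin.succ_inj] at h4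
        obtain ⟨rfl, rfl⟩ := h4
        left
        rw [h5] at hy
        exact hy
      · cases h4
    · obtain ⟨j, v', h5, h4⟩ := mem_bEdges.1 (mem_bEdges_of_mem h h3)
      simp only [core.injEq, Fin.succ_inj] at h4
      obtain ⟨rfl, rfl⟩ := h4
      right
      rw [flip_flip]
      subst h5
      exact ⟨h3, hy⟩

theorem reach_core_succ (h : IsOr D F) {u v : Cube k} {m : Fin M} {i : Fin k}
    (hr : D.Reach (src u m) (core i.succ v)) :
    D.Reach (src u m) (core i.castSucc v) ∨
      ((core i.succ (flip i v), core i.succ v) ∈ F ∧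
        D.Reach (src u m) (core i.castSucc (flip i v))) := by
  rcases reach_core_succ_aux h hr with h1 | ⟨h1, h2⟩
  · exact Or.inl h1
  · rcases reach_core_succ_aux h h2 with h3 | ⟨h3, -⟩
    · exact Or.inr ⟨h1, h3⟩
    · exfalso
      rw [flip_flip] at h3
      refine not_both h ?_ h1 h3
      simp only [ne_eq, core.injEq, true_and]
      exact flip_ne _ _

open Classical in
/-- The sources that reach the core vertex `(i, v)` in `D`. -/
noncomputable def A (D : MixedGraph (Vtx k M)) (i : Fin (k + 1)) (v : Cube k) :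
    Finset (Cube k × Fin M) :=
  univ.filter (fun p => D.Reach (src p.1 p.2) (core i v))

theorem card_A_zero (h : IsOr D F) (v : Cube k) : (A D 0 v).card ≤ M := by
  classical
  have hsub : A D 0 v ⊆ (univ : Finset (Fin M)).image (fun m => (v, m)) := by
    intro p hp
    simp only [A, Finset.mem_filter, Finset.mem_univ, true_and] at hp
    have := reach_core_zero h hp
    simp only [Finset.mem_image, Finset.mem_univ, true_and]
    exact ⟨p.2, by rw [← this]⟩
  calc (A D 0 v).card ≤ _ := Finset.card_le_card hsub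
    _ ≤ (univ : Finset (Fin M)).card := Finset.card_image_le
    _ = M := by simp

theorem A_succ_of_not_mem (h : IsOr D F) (i : Fin k) (v : Cube k)
    (hF : (core i.succ (flip i v), core i.succ v) ∉ F) :
    (A D i.succ v).card ≤ (A D i.castSucc v).card := by
  refine Finset.card_le_card ?_
  intro p hp
  simp only [A, Finset.mem_filter, Finset.mem_univ, true_and] at hp ⊢
  rcases reach_core_succ h hp with h1 | ⟨h1, -⟩
  · exact h1
  · exact absurd h1 hF

theorem A_succ (h : IsOr D F) (i : Fin k) (v : Cube k) :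
    (A D i.succ v).card ≤ (A D i.castSucc v).card + (A D i.castSucc (flip i v)).card := by
  classical
  refine (Finset.card_le_card ?_).trans (Finset.card_union_le _ _)
  intro p hp
  simp only [A, Finset.mem_filter, Finset.mem_univ, true_and, Finset.mem_union] at hp ⊢
  rcases reach_core_succ h hp with h1 | ⟨-, h1⟩
  · exact Or.inl h1
  · exact Or.inr h1

theorem sq_ineq (p q x y : ℕ) (hx : x ≤ p) (hy : y ≤ p + q) :
    x ^ 2 + y ^ 2 ≤ 3 * (p ^ 2 + q ^ 2) := by
  have h1 : x ^ 2 ≤ p ^ 2 := Nat.pow_le_pow_left hx 2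
  have h2 : y ^ 2 ≤ (p + q) ^ 2 := Nat.pow_le_pow_left hy 2
  have h3 : 2 * p * q ≤ p ^ 2 + q ^ 2 := two_mul_le_add_sq p q
  nlinarith

theorem pair_sq (h : IsOr D F) (i : Fin k) (v : Cube k) :
    (A D i.succ v).card ^ 2 + (A D i.succ (flip i v)).card ^ 2 ≤
      3 * ((A D i.castSucc v).card ^ 2 + (A D i.castSucc (flip i v)).card ^ 2) := by
  by_cases hF : (core i.succ (flip i v), core i.succ v) ∈ F
  · have hF' : (core i.succ (flip i (flip i v)), core i.succ (flip i v)) ∉ F := by
      rw [flip_flip]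
      intro h'
      refine not_both h ?_ hF h'
      simp only [ne_eq, core.injEq, true_and]
      exact flip_ne _ _
    have h1 := A_succ_of_not_mem h i (flip i v) hF'
    have h2 := A_succ h i v
    rw [add_comm (A D i.castSucc v).card] at h2
    have := sq_ineq _ _ _ _ h1 h2
    omega
  · have h1 := A_succ_of_not_mem h i v hF
    have h2 := A_succ h i (flip i v)
    rw [flip_flip, add_comm (A D i.castSucc (flip i v)).card] at h2
    exact sq_ineq _ _ _ _ h1 h2

/-- Flipping as a permutation. -/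
def flipEquiv (i : Fin k) : Cube k ≃ Cube k where
  toFun := flip i
  invFun := flip i
  left_inv := flip_flip i
  right_inv := flip_flip i

theorem sum_sq_succ (h : IsOr D F) (i : Fin k) :
    ∑ v, (A D i.succ v).card ^ 2 ≤ 3 * ∑ v, (A D i.castSucc v).card ^ 2 := by
  have h1 : ∑ v, ((A D i.succ v).card ^ 2 + (A D i.succ (flip i v)).card ^ 2) ≤
      ∑ v, 3 * ((A D i.castSucc v).card ^ 2 + (A D i.castSucc (flip i v)).card ^ 2) :=
    Finset.sum_le_sum (fun v _ => pair_sq h i v)
  have h2 : ∑ v, (A D i.succ (flip i v)).card ^ 2 = ∑ v, (A D i.succ v).card ^ 2 :=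
    Equiv.sum_comp (flipEquiv i) (fun v => (A D i.succ v).card ^ 2)
  have h3 : ∑ v, (A D i.castSucc (flip i v)).card ^ 2 = ∑ v, (A D i.castSucc v).card ^ 2 :=
    Equiv.sum_comp (flipEquiv i) (fun v => (A D i.castSucc v).card ^ 2)
  rw [Finset.sum_add_distrib, h2, ← Finset.mul_sum, Finset.sum_add_distrib, h3] at h1
  omega

theorem sum_sq (h : IsOr D F) (i : ℕ) (hi : i < k + 1) :
    ∑ v, (A D ⟨i, hi⟩ v).card ^ 2 ≤ 3 ^ i * (2 ^ k * M ^ 2) := by
  induction i with
  | zero =>
    calc ∑ v, (A D ⟨0, hi⟩ v).card ^ 2 ≤ ∑ _v : Cube k, M ^ 2 :=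
          Finset.sum_le_sum (fun v _ => Nat.pow_le_pow_left (card_A_zero h v) 2)
      _ = 3 ^ 0 * (2 ^ k * M ^ 2) := by simp [Finset.sum_const, Finset.card_univ]
  | succ i ih =>
    have h1 := sum_sq_succ h ⟨i, by omega⟩
    have h2 := ih (by omega)
    calc ∑ v, (A D ⟨i + 1, hi⟩ v).card ^ 2 ≤ 3 * ∑ v, (A D ⟨i, by omega⟩ v).card ^ 2 := h1
      _ ≤ 3 * (3 ^ i * (2 ^ k * M ^ 2)) := Nat.mul_le_mul_left 3 h2
      _ = 3 ^ (i + 1) * (2 ^ k * M ^ 2) := by ring

theorem sum_last_sq (h : IsOr D F) :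
    (∑ v, (A D (Fin.last k) v).card) ^ 2 ≤ 12 ^ k * M ^ 2 := by
  have h1 := sum_sq h k (Nat.lt_succ_self k)
  have h2 : (∑ v, (A D (Fin.last k) v).card) ^ 2 ≤
      (univ : Finset (Cube k)).card * ∑ v, (A D (Fin.last k) v).card ^ 2 :=
    sq_sum_le_card_mul_sum_sq
  have h3 : (univ : Finset (Cube k)).card = 2 ^ k := by simp [Finset.card_univ]
  rw [h3] at h2
  calc (∑ v, (A D (Fin.last k) v).card) ^ 2 ≤ 2 ^ k * ∑ v, (A D (Fin.last k) v).card ^ 2 := h2
    _ ≤ 2 ^ k * (3 ^ k * (2 ^ k * M ^ 2)) := Nat.mul_le_mul_left _ h1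
    _ = (2 * 3 * 2) ^ k * M ^ 2 := by rw [mul_pow, mul_pow]; ring
    _ = 12 ^ k * M ^ 2 := by norm_num

/-! ### Counting reachable pairs -/

theorem card_Vtx (k M : ℕ) :
    Fintype.card (Vtx k M) = (k + 1) * 2 ^ k + 2 * (2 ^ k * M) := by
  rw [Fintype.card_congr (Vtx.equiv k M)]
  simp only [Fintype.card_sum, Fintype.card_prod, Fintype.card_fin, Fintype.card_fun,
    Fintype.card_bool]
  ring

/-- The core vertices. -/
noncomputable def coreSet (k M : ℕ) : Finset (Vtx k M) :=
  (univ : Finset (Fin (k + 1) × Cube k)).image (fun p => core p.1 p.2)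

theorem card_coreSet (k M : ℕ) : (coreSet k M).card ≤ (k + 1) * 2 ^ k := by
  refine Finset.card_image_le.trans ?_
  simp [Finset.card_univ]

open Classical in
/-- The pairs (source, sink) with the sink reachable from the source in `D`. -/
noncomputable def ssPairs (D : MixedGraph (Vtx k M)) : Finset (Vtx k M × Vtx k M) :=
  (univ : Finset (Cube k × Fin M)).biUnion
    (fun q => (A D (Fin.last k) q.1).image (fun p => (src p.1 p.2, snk q.1 q.2)))

theorem card_ssPairs (D : MixedGraph (Vtx k M)) :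
    (ssPairs D).card ≤ M * ∑ v, (A D (Fin.last k) v).card := by
  classical
  unfold ssPairs
  refine Finset.card_biUnion_le.trans ?_
  calc ∑ q : Cube k × Fin M, ((A D (Fin.last k) q.1).image
          (fun p => ((src p.1 p.2 : Vtx k M), (snk q.1 q.2 : Vtx k M)))).card
      ≤ ∑ q : Cube k × Fin M, (A D (Fin.last k) q.1).card :=
        Finset.sum_le_sum (fun q _ => Finset.card_image_le)
    _ = M * ∑ v, (A D (Fin.last k) v).card := by
        rw [Fintype.sum_prod_type]
        simp [Finset.mul_sum]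

theorem R_one {V : Type} [Fintype V] (G : MixedGraph V) [DecidablePred
    (fun p : V × V => p.1 ≠ p.2 ∧ G.Reach p.1 p.2)] :
    G.R (fun _ => 1) =
      ((univ : Finset (V × V)).filter (fun p => p.1 ≠ p.2 ∧ G.Reach p.1 p.2)).card := by
  classical
  unfold MixedGraph.R
  simp only [Nat.choose_eq_zero_of_lt (by norm_num : (1 : ℕ) < 2), Finset.sum_const_zero,
    mul_zero, zero_add, mul_one, Finset.sum_const, smul_eq_mul]
  congr

theorem R_orientation_le (h : IsOr D F) :
    D.R (fun _ => 1) ≤ 2 * (((k + 1) * 2 ^ k) * ((k + 1) * 2 ^ k + 2 * (2 ^ k * M))) +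
      M * ∑ v, (A D (Fin.last k) v).card := by
  classical
  rw [R_one]
  have hsub : (univ : Finset (Vtx k M × Vtx k M)).filter
      (fun p => p.1 ≠ p.2 ∧ D.Reach p.1 p.2) ⊆
      ((coreSet k M ×ˢ univ) ∪ (univ ×ˢ coreSet k M)) ∪ ssPairs D := by
    intro p hp
    obtain ⟨x, y⟩ := p
    simp only [Finset.mem_filter, Finset.mem_univ, true_and] at hp
    obtain ⟨hne, hr⟩ := hp
    simp only [Finset.mem_union, Finset.mem_product, Finset.mem_univ, and_true, true_and]
    rcases x with ⟨u, m⟩ | ⟨i, u⟩ | ⟨u, m⟩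
    · rcases y with ⟨v, m'⟩ | ⟨j, v⟩ | ⟨v, m'⟩
      · exact absurd (reach_src h hr) hne
      · left; right
        simp [coreSet]
      · right
        simp only [ssPairs, Finset.mem_biUnion, Finset.mem_univ, true_and, Finset.mem_image]
        refine ⟨(v, m'), (u, m), ?_, rfl⟩
        simp only [A, Finset.mem_filter, Finset.mem_univ, true_and]
        exact reach_snk h hr
    · left; left
      simp [coreSet]
    · exact absurd (reach_from_snk h hr).symm hne
  refine (Finset.card_le_card hsub).trans ?_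
  refine (Finset.card_union_le _ _).trans ?_
  refine add_le_add ?_ (card_ssPairs D)
  refine (Finset.card_union_le _ _).trans ?_
  rw [Finset.card_product, Finset.card_product, Finset.card_univ, card_Vtx]
  have := card_coreSet k M
  have h1 := Nat.mul_le_mul_right ((k + 1) * 2 ^ k + 2 * (2 ^ k * M)) this
  calc _ = (coreSet k M).card * ((k + 1) * 2 ^ k + 2 * (2 ^ k * M)) +
        (coreSet k M).card * ((k + 1) * 2 ^ k + 2 * (2 ^ k * M)) := by ring
    _ ≤ ((k + 1) * 2 ^ k) * ((k + 1) * 2 ^ k + 2 * (2 ^ k * M)) +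
        ((k + 1) * 2 ^ k) * ((k + 1) * 2 ^ k + 2 * (2 ^ k * M)) := add_le_add h1 h1
    _ = _ := by ring

end Orientation

theorem R_butterfly_ge (k M : ℕ) :
    4 ^ k * M ^ 2 ≤ (butterfly k M).R (fun _ => 1) := by
  classical
  rw [R_one]
  have hinj : Function.Injective (fun p : (Cube k × Fin M) × (Cube k × Fin M) =>
      ((src p.1.1 p.1.2 : Vtx k M), (snk p.2.1 p.2.2 : Vtx k M))) := by
    rintro ⟨⟨a, b⟩, ⟨c, d⟩⟩ ⟨⟨a', b'⟩, ⟨c', d'⟩⟩ h
    simp only [Prod.mk.injEq, src.injEq, snk.injEq] at h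
    obtain ⟨⟨h1, h2⟩, ⟨h3, h4⟩⟩ := h
    rw [h1, h2, h3, h4]
  have hcard : ((univ : Finset ((Cube k × Fin M) × (Cube k × Fin M))).map ⟨_, hinj⟩).card =
      4 ^ k * M ^ 2 := by
    rw [Finset.card_map, Finset.card_univ]
    simp only [Fintype.card_prod, Fintype.card_fin, Fintype.card_fun, Fintype.card_bool]
    have : (4 : ℕ) ^ k = 2 ^ k * 2 ^ k := by
      rw [← mul_pow]
      norm_num
    rw [this]; ring
  rw [← hcard]
  refine Finset.card_le_card ?_
  intro x hx
  simp only [Finset.mem_map, Finset.mem_univ, true_and, Function.Embedding.coeFn_mk] at hx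
  obtain ⟨⟨⟨a, b⟩, ⟨c, d⟩⟩, rfl⟩ := hx
  simp only [Finset.mem_filter, Finset.mem_univ, true_and]
  exact ⟨by simp, reach_src_snk a c b d⟩

/-- **Negative answer.** For every `α > 0` there is a finite mixed graph `G` such that, for the
constant weight function `1`, every orientation `D` of `G` satisfies `R(D, 1) < α R(G, 1)`. -/
theorem result : ∀ α : ℝ, 0 < α → ∃ (V : Type) (_ : Fintype V) (G : MixedGraph V),
    ∀ D : MixedGraph V, G.IsOrientation D →
      (D.R (fun _ => 1) : ℝ) < α * (G.R (fun _ => 1) : ℝ) := by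
  intro α hα
  -- choose the dimension
  obtain ⟨k, hk⟩ : ∃ k : ℕ, (3 / 4 : ℝ) ^ k < (α / 2) ^ 2 :=
    exists_pow_lt_of_lt_one (by positivity) (by norm_num)
  -- choose the number of pendant vertices
  set C : ℝ := (k + 1) * 2 ^ k with hC
  have hCpos : 0 < C := by positivity
  set B : ℝ := 2 * (C * (C + 2 * 2 ^ k)) with hB
  have hBpos : 0 < B := by positivity
  obtain ⟨M, hM⟩ := exists_nat_gt (B / (α / 2 * 4 ^ k))
  have hden : 0 < α / 2 * 4 ^ k := by positivity
  have hMpos : (0 : ℝ) < M := lt_trans (div_pos hBpos hden) hM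
  have hM1 : (1 : ℝ) ≤ M := by
    have : 0 < M := by exact_mod_cast hMpos
    exact_mod_cast this
  have hBM : B < α / 2 * 4 ^ k * M := by
    rw [div_lt_iff₀ hden] at hM
    linarith
  refine ⟨Vtx k M, inferInstance, butterfly k M, ?_⟩
  rintro D ⟨hD0, F, hF, hDF⟩
  have hor : IsOr D F := ⟨hD0, hF, hDF⟩
  have h1 := R_orientation_le hor
  have h2 := R_butterfly_ge k M
  have h3 := sum_last_sq hor
  set S : ℕ := ∑ v, (A D (Fin.last k) v).card with hS
  have h1' : (D.R (fun _ => 1) : ℝ) ≤ 2 * (C * (C + 2 * (2 ^ k * M))) + M * S := by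
    have := (Nat.cast_le (α := ℝ)).2 h1
    push_cast at this
    rw [hC]
    exact this
  have h2' : (4 : ℝ) ^ k * M ^ 2 ≤ ((butterfly k M).R (fun _ => 1) : ℝ) := by
    have := (Nat.cast_le (α := ℝ)).2 h2
    push_cast at this
    exact this
  have h3' : (S : ℝ) ^ 2 ≤ 12 ^ k * (M : ℝ) ^ 2 := by
    have := (Nat.cast_le (α := ℝ)).2 h3
    push_cast at this
    exact this
  -- bound on `S`
  have hSle : (S : ℝ) ≤ α / 2 * 4 ^ k * M := by
    refine abs_le_of_sq_le_sq' ?_ (by positivity) |>.2
    calc (S : ℝ) ^ 2 ≤ 12 ^ k * (M : ℝ) ^ 2 := h3'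
      _ = (3 / 4) ^ k * 16 ^ k * (M : ℝ) ^ 2 := by
          rw [← mul_pow]; norm_num
      _ ≤ (α / 2) ^ 2 * 16 ^ k * (M : ℝ) ^ 2 := by
          gcongr
      _ = (α / 2 * 4 ^ k * M) ^ 2 := by
          have : (16 : ℝ) ^ k = (4 ^ k) ^ 2 := by
            rw [← pow_mul, mul_comm k 2, pow_mul]; norm_num
          rw [this]; ring
  have hfirst : 2 * (C * (C + 2 * (2 ^ k * M))) ≤ B * M := by
    rw [hB]
    have : C + 2 * (2 ^ k * M) ≤ (C + 2 * 2 ^ k) * M := by nlinarith
    calc 2 * (C * (C + 2 * (2 ^ k * M))) ≤ 2 * (C * ((C + 2 * 2 ^ k) * M)) := by gcongr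
      _ = _ := by ring
  calc (D.R (fun _ => 1) : ℝ) ≤ 2 * (C * (C + 2 * (2 ^ k * M))) + M * S := h1'
    _ ≤ B * M + M * (α / 2 * 4 ^ k * M) := by gcongr
    _ < (α / 2 * 4 ^ k * M) * M + M * (α / 2 * 4 ^ k * M) := by
        have := mul_lt_mul_of_pos_right hBM hMpos
        linarith
    _ = α * (4 ^ k * M ^ 2) := by ring
    _ ≤ α * ((butterfly k M).R (fun _ => 1) : ℝ) := by gcongr

end Pool.Agent.Results.MP_408802_co.NoConstant
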